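import Pool.Agent.Q214.BH.Stm2

set_option autoImplicit false

/-!
# Job EMB+ZD of the project BH (helper214)
-/

namespace Pool.Agent.Q75.BH

open Pool.Agent.Q214.BH Topology TopologicalSpace Filter Set

/-- a continuous partition in countably many small clopen pieces -/
theorem exists_part (Q : Type) [MetricSpace Q] [SecondCountableTopology Q] [Nonempty Q]
    (hb : IsTopologicalBasis {s : Set Q | IsClopen s}) (ε : ℝ) (hε : 0 < ε) :
    ∃ c : Q → ℕ, Continuous c ∧ ∀ x y, c x = c y → dist x y < ε := by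
  classical
  have h1 : ∀ x : Q, ∃ V : Set Q, IsClopen V ∧ x ∈ V ∧ V ⊆ Metric.ball x (ε / 2) := fun x =>
    hb.exists_subset_of_mem_open (Metric.mem_ball_self (by linarith)) Metric.isOpen_ball
  choose V hVc hxV hV using h1
  obtain ⟨s, hs, hsU⟩ := TopologicalSpace.countable_cover_nhds
    (fun x => (hVc x).isOpen.mem_nhds (hxV x))
  have hne : s.Nonempty := by
    rw [Set.nonempty_iff_ne_empty]
    rintro rfl
    obtain ⟨x⟩ := ‹Nonempty Q›
    have : x ∈ (⋃ x ∈ (∅ : Set Q), V x) := by rw [hsU]; exact mem_univ _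
    simp at this
  obtain ⟨f, hf⟩ := hs.exists_eq_range hne
  have hcov : ∀ x, ∃ n, x ∈ V (f n) := by
    intro x
    have : x ∈ (⋃ x ∈ s, V x) := by rw [hsU]; exact mem_univ _
    rw [hf] at this
    simpa using this
  refine ⟨fun x => Nat.find (hcov x), ?_, ?_⟩
  · rw [continuous_discrete_rng]
    intro n
    have e : (fun x => Nat.find (hcov x)) ⁻¹' {n} = V (f n) ∩ ⋂ m ∈ Set.Iio n, (V (f m))ᶜ := by
      ext x
      simp only [mem_preimage, mem_singleton_iff, Nat.find_eq_iff, mem_inter_iff, mem_iInter,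
        mem_Iio, mem_compl_iff]
    rw [e]
    exact (hVc _).isOpen.inter ((Set.finite_Iio n).isOpen_biInter fun m _ => (hVc _).compl.isOpen)
  · intro x y hxy
    have hx := Nat.find_spec (hcov x)
    have hy := Nat.find_spec (hcov y)
    have hxy' : Nat.find (hcov x) = Nat.find (hcov y) := hxy
    rw [← hxy'] at hy
    have h2 := hV _ hx
    have h3 := hV _ hy
    rw [Metric.mem_ball] at h2 h3
    calc dist x y ≤ dist x (f (Nat.find (hcov x))) + dist y (f (Nat.find (hcov x))) :=
          dist_triangle_right _ _ _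
      _ < ε := by linarith

theorem emb : S_EMB := by
  intro Q _ _ _ hb
  letI : UpgradedIsCompletelyMetrizableSpace Q := upgradeIsCompletelyMetrizable Q
  have hpos : ∀ i : ℕ, (0 : ℝ) < (1 / 2) ^ i := fun i => by positivity
  choose c hc hcd using fun i : ℕ => exists_part Q hb ((1 / 2) ^ i) (hpos i)
  let j : Q → ℕ → ℕ := fun x i => c i x
  have hj : Continuous j := continuous_pi hc
  have hsmall : ∀ ε : ℝ, 0 < ε → ∃ i : ℕ, (1 / 2 : ℝ) ^ i < ε := fun ε hε =>
    exists_pow_lt_of_lt_one hε (by norm_num)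
  have hinj : Function.Injective j := by
    intro x y hxy
    by_contra hne
    obtain ⟨i, hi⟩ := hsmall _ (dist_pos.mpr hne)
    have := hcd i x y (congrFun hxy i)
    linarith
  have hind : IsInducing j := by
    rw [isInducing_iff_nhds]
    intro x
    refine le_antisymm (hj.tendsto x).le_comap ?_
    intro U hU
    obtain ⟨ε, hε, hεU⟩ := Metric.mem_nhds_iff.mp hU
    obtain ⟨i, hi⟩ := hsmall ε hε
    refine ⟨(fun z : ℕ → ℕ => z i) ⁻¹' {j x i}, ?_, ?_⟩
    · exact (continuous_apply i).continuousAt.preimage_mem_nhds (by simp)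
    · intro y hy
      refine hεU ?_
      rw [Metric.mem_ball]
      have := hcd i y x hy
      linarith
  have hemb : IsEmbedding j := ⟨hind, hinj⟩
  have hcl : IsClosed (range j) := by
    refine isClosed_of_closure_subset fun z hz => ?_
    obtain ⟨v, hv, hvz⟩ := mem_closure_iff_seq_limit.mp hz
    choose x hx using hv
    have hev : ∀ i : ℕ, ∃ N, ∀ n, N ≤ n → c i (x n) = z i := by
      intro i
      have h1 : Tendsto (fun n => v n i) atTop (𝓝 (z i)) :=
        ((continuous_apply i).tendsto z).comp hvz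
      have h2 : ∀ᶠ n in atTop, v n i = z i := by
        filter_upwards [h1 (show ({z i} : Set ℕ) ∈ 𝓝 (z i) by simp)] with n hn
        exact hn
      obtain ⟨N, hN⟩ := eventually_atTop.mp h2
      refine ⟨N, fun n hn => ?_⟩
      rw [← hN n hn, ← hx n]
    have hcau : CauchySeq x := by
      rw [Metric.cauchySeq_iff]
      intro ε hε
      obtain ⟨i, hi⟩ := hsmall ε hε
      obtain ⟨N, hN⟩ := hev i
      refine ⟨N, fun m hm n hn => ?_⟩
      have := hcd i (x m) (x n) ((hN m hm).trans (hN n hn).symm)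
      linarith
    obtain ⟨a, ha⟩ := cauchySeq_tendsto_of_complete hcau
    have h1 : Tendsto (fun n => j (x n)) atTop (𝓝 (j a)) := (hj.tendsto a).comp ha
    have h2 : (fun n => j (x n)) = v := funext hx
    rw [h2] at h1
    exact ⟨a, tendsto_nhds_unique h1 hvz⟩
  have hne : (range j).Nonempty := range_nonempty j
  obtain ⟨f, hf, _, hfc⟩ := PiNat.exists_retraction_subtype_of_isClosed hcl hne
  refine ⟨j, fun z => hemb.toHomeomorph.symm (f z), hj,
    hemb.toHomeomorph.symm.continuous.comp hfc, fun q => ?_⟩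
  have h1 : f (j q) = hemb.toHomeomorph q := by
    have := hf ⟨j q, mem_range_self q⟩
    rw [this]
    rfl
  show hemb.toHomeomorph.symm (f (j q)) = q
  rw [h1, Homeomorph.symm_apply_apply]

theorem zd : S_ZD := by
  refine ⟨?_, ?_, ?_, ?_, ?_⟩
  · intro X Y _ _ hX hY
    refine isTopologicalBasis_of_isOpen_of_nhds (fun u hu => hu.isOpen) fun a u ha hu => ?_
    obtain ⟨v, hv, hav, hvu⟩ := (hX.prod hY).exists_subset_of_mem_open ha hu
    obtain ⟨v1, h1, v2, h2, rfl⟩ := hv
    exact ⟨_, IsClopen.prod h1 h2, hav, hvu⟩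
  · intro I X _ h
    refine isTopologicalBasis_of_isOpen_of_nhds (fun u hu => hu.isOpen) fun a u ha hu => ?_
    obtain ⟨v, hv, hav, hvu⟩ := (isTopologicalBasis_pi h).exists_subset_of_mem_open ha hu
    obtain ⟨U, F, hF, rfl⟩ := hv
    refine ⟨_, ⟨isClosed_set_pi fun i hi => (hF i hi).isClosed,
      isOpen_set_pi F.finite_toSet fun i hi => (hF i hi).isOpen⟩, hav, hvu⟩
  · intro X Y _ _ f hf hY
    refine isTopologicalBasis_of_isOpen_of_nhds (fun u hu => hu.isOpen) fun a u ha hu => ?_
    obtain ⟨V, hV, rfl⟩ := hf.isOpen_iff.mp hu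
    obtain ⟨v, hv, hav, hvu⟩ := hY.exists_subset_of_mem_open ha hV
    exact ⟨f ⁻¹' v, IsClopen.preimage hv hf.continuous, hav, preimage_mono hvu⟩
  · intro X _ _
    refine isTopologicalBasis_of_isOpen_of_nhds (fun u hu => hu.isOpen) fun a u ha hu => ?_
    exact ⟨{a}, isClopen_discrete _, rfl, by simpa using ha⟩
  · exact loc_compact_Haus_tot_disc_of_zero_dim

end Pool.Agent.Q75.BH
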