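import Pool.Agent.Q214.BH.Stm

set_option autoImplicit false

/-!
# Job GEN of the project BH (helper214)
-/

namespace Pool.Agent.Q75.BH

open Pool.Agent.Q214.BH Topology Filter Set

/-- generic points stay generic after a translation -/
theorem ev_shift (a : ℤ_[3]) {p : ℤ_[3] → Prop} (h : ∀ᶠ w in residual ℤ_[3], p w) :
    ∀ᶠ w in residual ℤ_[3], p (w + a) := by
  have h1 := (Homeomorph.addRight a).residual_map_eq
  have h2 : ∀ᶠ w in (residual ℤ_[3]).map (Homeomorph.addRight a), p w := by
    rw [h1]; exact h
  exact h2

/-- powers of three tend to zero -/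
theorem exists_pow (U : Set ℤ_[3]) (hU : IsOpen U) (x : ℤ_[3]) (hx : x ∈ U) :
    ∃ n : ℕ, x + ((3 ^ n : ℕ) : ℤ_[3]) ∈ U := by
  have h1 : ‖(3 : ℤ_[3])‖ < 1 := by
    have : ‖((3 : ℤ) : ℤ_[3])‖ < 1 := by
      rw [PadicInt.norm_int_lt_one_iff_dvd]
      decide
    exact_mod_cast this
  have h2 : Tendsto (fun n : ℕ => (3 : ℤ_[3]) ^ n) atTop (𝓝 0) :=
    tendsto_pow_atTop_nhds_zero_of_norm_lt_one h1
  have h3 : Tendsto (fun n : ℕ => x + (3 : ℤ_[3]) ^ n) atTop (𝓝 (x + 0)) :=
    tendsto_const_nhds.add h2
  rw [add_zero] at h3
  obtain ⟨n, hn⟩ := (h3.eventually (hU.mem_nhds hx)).exists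
  refine ⟨n, ?_⟩
  have : ((3 ^ n : ℕ) : ℤ_[3]) = (3 : ℤ_[3]) ^ n := by push_cast; rfl
  rw [this]; exact hn

/-- a Baire measurable set which meets every half orbit at most once is meagre -/
theorem sparse (M : Set ℤ_[3]) (hM : BaireMeasurableSet M)
    (h : ∀ w ∈ M, ∀ b : ℕ, 1 ≤ b → w + (b : ℤ_[3]) ∉ M) : ∀ᶠ w in residual ℤ_[3], w ∉ M := by
  obtain ⟨U, hU, hMU⟩ := hM.residualEq_isOpen
  have hMU' : ∀ᶠ w in residual ℤ_[3], (w ∈ M ↔ w ∈ U) := by
    filter_upwards [hMU] with w hw
    exact iff_of_eq hw
  have hUe : U = ∅ := by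
    by_contra hne
    obtain ⟨x, hx⟩ := Set.nonempty_iff_ne_empty.mpr hne
    obtain ⟨n, hn⟩ := exists_pow U hU x hx
    have hO : IsOpen (U ∩ (fun w : ℤ_[3] => w + ((3 ^ n : ℕ) : ℤ_[3])) ⁻¹' U) :=
      hU.inter (hU.preimage (by fun_prop))
    have hd := dense_of_mem_residual (hMU'.and (ev_shift ((3 ^ n : ℕ) : ℤ_[3]) hMU'))
    obtain ⟨w, hwO, hw⟩ := hd.inter_open_nonempty _ hO ⟨x, hx, hn⟩
    exact h w (hw.1.mpr hwO.1) (3 ^ n) (Nat.one_le_pow _ _ (by norm_num)) (hw.2.mpr hwO.2)
  filter_upwards [hMU'] with w hw
  rw [hw, hUe]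
  exact Set.notMem_empty w

theorem gen (h0 : S_GEN0) : S_GEN := by
  intro I _ n mv A hA t₀ R t hR ht hok
  let _ : MeasurableSpace ℤ_[3] := borel ℤ_[3]
  have _ : BorelSpace ℤ_[3] := ⟨rfl⟩
  have hmeas : ∀ (i : I) (S : Set (RL n)), MeasurableSet {w | R i w ∈ S} := by
    intro i S
    have : {w | R i w ∈ S} = ⋃ l ∈ S, {w | R i w = l} := by
      ext w; simp
    rw [this]
    exact MeasurableSet.biUnion (Set.to_countable S) fun l _ => hR i l
  -- the rule holds generically
  let S : Set ℤ_[3] := {w | ∀ i ∈ A, ReachOK (t₀ i) (R i w) (R i (w + 1)) (fun j => R (mv j i) w)}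
  have hS : S ∈ residual ℤ_[3] := by
    filter_upwards [ht, hok] with w h1 h2 i hi
    have := h2 i hi
    rwa [h1 i hi] at this
  obtain ⟨T, hTS, hTG, hTd⟩ := mem_residual.mp hS
  have hT : T ∈ residual ℤ_[3] := mem_residual.mpr ⟨T, Subset.rfl, hTG, hTd⟩
  have hTm : MeasurableSet T := hTG.measurableSet
  let G : Set ℤ_[3] := {w | ∀ k : ℤ, w + (k : ℤ_[3]) ∈ T}
  have hG : G ∈ residual ℤ_[3] := by
    have : ∀ᶠ w in residual ℤ_[3], ∀ k : ℤ, w + (k : ℤ_[3]) ∈ T := by
      rw [eventually_countable_forall]
      intro k
      exact ev_shift (k : ℤ_[3]) hT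
    exact this
  have hGm : MeasurableSet G := by
    have : G = ⋂ k : ℤ, (fun w : ℤ_[3] => w + (k : ℤ_[3])) ⁻¹' T := by
      ext w; simp [G]
    rw [this]
    refine MeasurableSet.iInter fun k => ?_
    have hc : Continuous fun w : ℤ_[3] => w + (k : ℤ_[3]) := by fun_prop
    exact hc.measurable hTm
  have hGs : ∀ (w : ℤ_[3]) (k : ℤ), w ∈ G → w + (k : ℤ_[3]) ∈ G := by
    intro w k hw l
    have := hw (k + l)
    push_cast at this
    rwa [← add_assoc] at this
  have hGK : ∀ w ∈ G, ∀ i ∈ A, ReachOK (t₀ i) (R i w) (R i (w + 1)) (fun j => R (mv j i) w) := by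
    intro w hw
    have h1 : w + ((0 : ℤ) : ℤ_[3]) ∈ S := hTS (hw 0)
    have e : w + ((0 : ℤ) : ℤ_[3]) = w := by push_cast; ring
    rw [e] at h1
    exact h1
  have hGn : ∀ (w : ℤ_[3]) (k : ℕ), w ∈ G → w + (k : ℤ_[3]) ∈ G := by
    intro w k hw
    have := hGs w (k : ℤ) hw
    simpa using this
  -- constancy of `P` and of the pointer
  have hPn : ∀ i ∈ A, ∀ w ∈ G, ∀ k : ℕ, (R i (w + k)).P = (R i w).P ∧
      (R i (w + k)).ptr = (R i w).ptr := by
    intro i hi w hw k
    induction k with
    | zero => simp
    | succ k ih =>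
      have h1 := hGK (w + k) (hGn w k hw) i hi
      have e : w + ((k + 1 : ℕ) : ℤ_[3]) = w + k + 1 := by push_cast; ring
      rw [e, h1.1, h1.2.1]
      exact ih
  have hPz : ∀ i ∈ A, ∀ w ∈ G, ∀ k : ℤ, (R i (w + k)).P = (R i w).P := by
    intro i hi w hw k
    obtain ⟨l, rfl | rfl⟩ := k.eq_nat_or_neg
    · have := (hPn i hi w hw l).1
      simpa using this
    · have := (hPn i hi (w + ((-(l : ℤ) : ℤ) : ℤ_[3])) (hGs w _ hw) l).1
      have e : w + ((-(l : ℤ) : ℤ) : ℤ_[3]) + (l : ℤ_[3]) = w := by push_cast; ring
      rw [e] at this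
      exact this.symm
  -- reachable indices stay in `A`
  have hreachA : ∀ i i', Relation.ReflTransGen (fun a b => ∃ j, b = mv j a) i i' → i ∈ A → i' ∈ A := by
    intro i i' h hi
    induction h with
    | refl => exact hi
    | tail _ hbc ih =>
      obtain ⟨j, rfl⟩ := hbc
      exact hA _ ih j
  -- no target reachable
  let NR : I → Prop := fun i => ∀ i', Relation.ReflTransGen (fun a b => ∃ j, b = mv j a) i i' →
    t₀ i' = false
  have hNR : ∀ i, NR i → ∀ j, NR (mv j i) := by
    intro i hi j i' h
    exact hi i' (Relation.ReflTransGen.head ⟨j, rfl⟩ h)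
  -- the main claim: no two marks
  have claim : ∀ b : ℕ, 1 ≤ b → ∀ i ∈ A, NR i → ∀ w ∈ G, (R i w).P = true → (R i w).E = true →
      (R i (w + b)).E = true → False := by
    intro b
    induction b using Nat.strong_induction_on with
    | _ b IH =>
      intro hb i hi hn w hw hP hE hEb
      have hK0 := hGK w hw i hi
      -- the pointer
      cases hp : (R i w).ptr with
      | none =>
        have h1 := (hK0.2.2.2 hP).1 hp
        have h2 := hn i Relation.ReflTransGen.refl
        rw [h1] at h2
        exact absurd h2 (by decide)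
      | some j =>
        have hstep : ∀ k : ℕ, (R (mv j i) (w + k)).P = true ∧
            (R i (w + k + 1)).k =
              cap (if (R i (w + k)).E = true then 0 else (R i (w + k)).k) (R (mv j i) (w + k)).E ∧
            ((R i (w + k + 1)).E = true → (R i (w + k + 1)).k = 2) := by
          intro k
          have h1 := hGK (w + k) (hGn w k hw) i hi
          have h2 := hPn i hi w hw k
          exact (h1.2.2.2 (h2.1.trans hP)).2.1 j (h2.2.trans hp)
        have hPj : (R (mv j i) w).P = true := by
          have := (hstep 0).1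
          simpa using this
        have hinv : ∀ m : ℕ, 1 ≤ m → m ≤ b →
            (((R i (w + m)).k = 0 ∧ ∀ c, c < m → (R (mv j i) (w + c)).E = false) ∨
              ((R i (w + m)).k = 1 ∧ ∃ c, c < m ∧ (R (mv j i) (w + c)).E = true)) := by
          intro m
          induction m with
          | zero => intro h; omega
          | succ m ihm =>
            intro _ hmb
            have e : w + ((m + 1 : ℕ) : ℤ_[3]) = w + m + 1 := by push_cast; ring
            have hs := hstep m
            rw [e]
            rcases Nat.eq_zero_or_pos m with hm0 | hm0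
            · subst hm0
              have e0 : w + ((0 : ℕ) : ℤ_[3]) = w := by simp
              rw [e0] at hs ⊢
              rw [hE] at hs
              have h2 := hs.2.1
              cases hc : (R (mv j i) w).E with
              | true =>
                right
                rw [hc] at h2
                refine ⟨h2, 0, by omega, by rw [e0]; exact hc⟩
              | false =>
                left
                rw [hc] at h2
                refine ⟨h2, fun c hc0 => ?_⟩
                have : c = 0 := by omega
                subst this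
                rw [e0]; exact hc
            · have hEm : (R i (w + m)).E = false := by
                by_contra hcon
                have hcon' : (R i (w + m)).E = true := by simpa using hcon
                exact IH m (by omega) hm0 i hi hn w hw hP hE hcon'
              have h2 := hs.2.1
              rw [hEm] at h2
              rcases ihm hm0 (by omega) with ⟨hk, hno⟩ | ⟨hk, c, hcm, hc⟩
              · rw [hk] at h2
                cases hc : (R (mv j i) (w + m)).E with
                | true =>
                  right
                  rw [hc] at h2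
                  exact ⟨h2, m, by omega, hc⟩
                | false =>
                  left
                  rw [hc] at h2
                  refine ⟨h2, fun c hcm => ?_⟩
                  rcases Nat.lt_succ_iff_lt_or_eq.mp hcm with h | h
                  · exact hno c h
                  · subst h; exact hc
              · rw [hk] at h2
                have hcE : (R (mv j i) (w + m)).E = false := by
                  by_contra hcon
                  have hcon' : (R (mv j i) (w + m)).E = true := by simpa using hcon
                  have hPc : (R (mv j i) (w + c)).P = true := (hstep c).1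
                  refine IH (m - c) (by omega) (by omega) (mv j i) (hA i hi j) (hNR i hn j)
                    (w + c) (hGn w c hw) hPc hc ?_
                  have e2 : w + (c : ℤ_[3]) + ((m - c : ℕ) : ℤ_[3]) = w + m := by
                    rw [add_assoc]
                    congr 1
                    have : ((c + (m - c) : ℕ) : ℤ_[3]) = (m : ℤ_[3]) := by
                      congr 1; omega
                    rw [← this]; push_cast; ring
                  rw [e2]; exact hcon'
                right
                rw [hcE] at h2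
                exact ⟨h2, c, by omega, hc⟩
        have hk2 : (R i (w + b)).k = 2 := by
          obtain ⟨b', rfl⟩ : ∃ b', b = b' + 1 := ⟨b - 1, by omega⟩
          have e : w + ((b' + 1 : ℕ) : ℤ_[3]) = w + b' + 1 := by push_cast; ring
          rw [e] at hEb ⊢
          exact (hstep b').2.2 hEb
        rcases hinv b hb le_rfl with ⟨hk, _⟩ | ⟨hk, _⟩
        · rw [hk2] at hk; exact absurd hk (by decide)
        · rw [hk2] at hk; exact absurd hk (by decide)
  -- the generic statement for a fixed index
  have main : ∀ i ∈ A, NR i → ∀ᶠ w in residual ℤ_[3], (R i w).P = false := by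
    intro i hi hn
    let M : Set ℤ_[3] := {w | w ∈ G ∧ (R i w).P = true ∧ (R i w).E = true}
    have hMm : MeasurableSet M := by
      have : M = G ∩ {w | R i w ∈ {l : RL n | l.P = true ∧ l.E = true}} := by
        ext w; exact Iff.rfl
      rw [this]
      exact hGm.inter (hmeas i _)
    have hM : ∀ᶠ w in residual ℤ_[3], w ∉ M := by
      refine sparse M hMm.baireMeasurableSet ?_
      intro w hw b hb hwb
      exact claim b hb i hi hn w hw.1 hw.2.1 hw.2.2 hwb.2.2
    have hMz : ∀ᶠ w in residual ℤ_[3], ∀ k : ℤ, w + (k : ℤ_[3]) ∉ M := by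
      rw [eventually_countable_forall]
      intro k
      exact ev_shift (k : ℤ_[3]) hM
    classical
    let W : Set ℤ_[3] := {w | w ∈ G ∧ (R i w).P = true ∧ ∀ k : ℤ, (R i (w + k)).E = false}
    have hWm : MeasurableSet W := by
      have : W = (G ∩ {w | R i w ∈ {l : RL n | l.P = true}}) ∩
          ⋂ k : ℤ, (fun w : ℤ_[3] => w + (k : ℤ_[3])) ⁻¹' {w | R i w ∈ {l : RL n | l.E = false}} := by
        ext w
        constructor
        · intro h
          exact ⟨⟨h.1, h.2.1⟩, mem_iInter.mpr fun k => h.2.2 k⟩
        · intro h
          exact ⟨h.1.1, h.1.2, fun k => mem_iInter.mp h.2 k⟩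
      rw [this]
      refine (hGm.inter (hmeas i _)).inter (MeasurableSet.iInter fun k => ?_)
      have hc : Continuous fun w : ℤ_[3] => w + (k : ℤ_[3]) := by fun_prop
      exact hc.measurable (hmeas i _)
    have hWs : ∀ (w : ℤ_[3]) (l : ℤ), w ∈ W → w + (l : ℤ_[3]) ∈ W := by
      intro w l hw
      refine ⟨hGs w l hw.1, (hPz i hi w hw.1 l).trans hw.2.1, fun k => ?_⟩
      have := hw.2.2 (l + k)
      push_cast at this
      rwa [← add_assoc] at this
    have hWs1 : ∀ w : ℤ_[3], w + 1 ∈ W ↔ w ∈ W := by
      intro w
      constructor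
      · intro h
        have := hWs (w + 1) (-1) h
        have e : w + 1 + ((-1 : ℤ) : ℤ_[3]) = w := by push_cast; ring
        rwa [e] at this
      · intro h
        have := hWs w 1 h
        simpa using this
    have hgW := h0 (fun w => decide (w ∈ W)) (fun w => (R i w).e)
      (by simpa using hWm) (hmeas i {l | l.e = true})
      (by intro w; simp only [hWs1])
      (by
        intro w hw
        have hw' : w ∈ W := by simpa using hw
        have hK := hGK w hw'.1 i hi
        have hE := hw'.2.2 0
        have hE' : (R i w).E = false := by simpa using hE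
        exact (hK.2.2.2 hw'.2.1).2.2 hE')
    filter_upwards [hG, hMz, hgW] with w h1 h2 h3
    by_contra hcon
    have hP : (R i w).P = true := by simpa using hcon
    have hw : w ∉ W := by simpa using h3
    have : ∃ k : ℤ, (R i (w + k)).E = true := by
      by_contra hno
      push Not at hno
      exact hw ⟨h1, hP, fun k => by simpa using hno k⟩
    obtain ⟨k, hk⟩ := this
    exact h2 k ⟨hGs w k h1, (hPz i hi w h1 k).trans hP, hk⟩
  have main2 : ∀ᶠ w in residual ℤ_[3], ∀ i : I, i ∈ A → NR i → (R i w).P = false := by
    rw [eventually_countable_forall]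
    intro i
    by_cases hi : i ∈ A
    · by_cases hn : NR i
      · filter_upwards [main i hi hn] with w hw _ _
        exact hw
      · exact Eventually.of_forall fun w _ h => absurd h hn
    · exact Eventually.of_forall fun w h _ => absurd h hi
  filter_upwards [hG, main2] with w h1 h2 i hi
  constructor
  · intro hP
    by_contra hcon
    push Not at hcon
    have hn : NR i := fun i' h => by simpa using hcon i' h
    have := h2 i hi hn
    rw [hP] at this
    exact absurd this (by decide)
  · rintro ⟨i', hr, hi'⟩
    by_contra hcon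
    have hPf : (R i w).P = false := by simpa using hcon
    have hall : ∀ i', Relation.ReflTransGen (fun a b => ∃ j, b = mv j a) i i' →
        i' ∈ A ∧ (R i' w).P = false := by
      intro i' h
      induction h with
      | refl => exact ⟨hi, hPf⟩
      | tail _ hbc ih =>
        obtain ⟨j, rfl⟩ := hbc
        exact ⟨hA _ ih.1 j, ((hGK w h1 _ ih.1).2.2.1 ih.2).2 j⟩
    have h3 := hall i' hr
    have h4 := ((hGK w h1 _ h3.1).2.2.1 h3.2).1
    rw [hi'] at h4
    exact absurd h4 (by decide)

end Pool.Agent.Q75.BH
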