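import Pool.Agent.Q214.BH.Stm

set_option autoImplicit false

/-!
# Job LOW of the project BH (helper214)
-/

namespace Pool.Agent.Q75.BH

open Pool.Agent.Q214.BH Topology TopologicalSpace Filter Set

theorem zt_one' : zt 1 = 0 := by simp [zt]

theorem zt_ofAdd : zt (Multiplicative.ofAdd 1) = 1 := by simp [zt]

section

variable {H : Type} [Group H] (u g c d y : H)

theorem hw_mem (s : List ℕ) : hw u g s ∈ Subgroup.closure {u, g, c} := by
  induction s with
  | nil => exact one_mem _
  | cons k s ih =>
    have hu : u ∈ Subgroup.closure {u, g, c} := Subgroup.subset_closure (by simp)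
    have hg : g ∈ Subgroup.closure {u, g, c} := Subgroup.subset_closure (by simp)
    exact mul_mem (mul_mem hu (pow_mem hg k)) ih

theorem hw_inv_mem (s : List ℕ) : (hw u g s)⁻¹ ∈ Submonoid.closure {g⁻¹, u⁻¹} := by
  induction s with
  | nil => simp [hw]
  | cons k s ih =>
    have hu : u⁻¹ ∈ Submonoid.closure {g⁻¹, u⁻¹} := Submonoid.subset_closure (by simp)
    have hg : g⁻¹ ∈ Submonoid.closure {g⁻¹, u⁻¹} := Submonoid.subset_closure (by simp)
    have e : (hw u g (k :: s))⁻¹ = (hw u g s)⁻¹ * ((g⁻¹) ^ k * u⁻¹) := by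
      simp [hw, mul_assoc]
    rw [e]
    exact mul_mem ih (mul_mem (pow_mem hg k) hu)

/-- reachability by the moves of the gadget `D` -/
theorem reach5 (hcc : c * c = 1) (h h' : H) :
    Relation.ReflTransGen (fun a b : H => ∃ j : Fin 5, b = (![u, u⁻¹, g, g⁻¹, c] j) * a) h h' ↔
      ∃ a ∈ Subgroup.closure {u, g, c}, h' = a * h := by
  have hu : u ∈ Subgroup.closure {u, g, c} := Subgroup.subset_closure (by simp)
  have hg : g ∈ Subgroup.closure {u, g, c} := Subgroup.subset_closure (by simp)
  have hc : c ∈ Subgroup.closure {u, g, c} := Subgroup.subset_closure (by simp)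
  constructor
  · intro hr
    induction hr with
    | refl => exact ⟨1, one_mem _, by simp⟩
    | tail _ hbc ih =>
      obtain ⟨j, rfl⟩ := hbc
      obtain ⟨a, ha, rfl⟩ := ih
      refine ⟨![u, u⁻¹, g, g⁻¹, c] j * a, mul_mem ?_ ha, by rw [mul_assoc]⟩
      fin_cases j
      · exact hu
      · exact inv_mem hu
      · exact hg
      · exact inv_mem hg
      · exact hc
  · rintro ⟨a, ha, rfl⟩
    have ha' : a ∈ Submonoid.closure ({u, g, c} ∪ ({u, g, c} : Set H)⁻¹) := by
      rw [← Subgroup.closure_toSubmonoid]; exact ha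
    clear ha
    induction ha' using Submonoid.closure_induction generalizing h with
    | mem x hx =>
      refine Relation.ReflTransGen.single ?_
      rcases hx with hx | hx
      · rcases hx with rfl | rfl | hx
        · exact ⟨0, rfl⟩
        · exact ⟨2, rfl⟩
        · rw [mem_singleton_iff] at hx; subst hx; exact ⟨4, rfl⟩
      · have hx' : x = u⁻¹ ∨ x = g⁻¹ ∨ x = c⁻¹ := by simpa using hx
        rcases hx' with hx | hx | hx
        · exact ⟨1, by rw [hx]; rfl⟩
        · exact ⟨3, by rw [hx]; rfl⟩
        · refine ⟨4, ?_⟩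
          have : x = c := by
            rw [hx]
            exact inv_eq_of_mul_eq_one_left hcc
          rw [this]; rfl
    | one => rw [one_mul]
    | mul a b _ _ iha ihb =>
      rw [mul_assoc]
      exact (ihb h).trans (iha (b * h))

/-- reachability by the moves of the gadget `φ` -/
theorem reach2 (h h' : H) :
    Relation.ReflTransGen (fun a b : H => ∃ j : Fin 2, b = (![g⁻¹, u⁻¹] j) * a) h h' ↔
      ∃ a ∈ Submonoid.closure {g⁻¹, u⁻¹}, h' = a * h := by
  have hu : u⁻¹ ∈ Submonoid.closure {g⁻¹, u⁻¹} := Submonoid.subset_closure (by simp)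
  have hg : g⁻¹ ∈ Submonoid.closure {g⁻¹, u⁻¹} := Submonoid.subset_closure (by simp)
  constructor
  · intro hr
    induction hr with
    | refl => exact ⟨1, one_mem _, by simp⟩
    | tail _ hbc ih =>
      obtain ⟨j, rfl⟩ := hbc
      obtain ⟨a, ha, rfl⟩ := ih
      refine ⟨![g⁻¹, u⁻¹] j * a, mul_mem ?_ ha, by rw [mul_assoc]⟩
      fin_cases j
      · exact hg
      · exact hu
  · rintro ⟨a, ha, rfl⟩
    induction ha using Submonoid.closure_induction generalizing h with
    | mem x hx =>
      refine Relation.ReflTransGen.single ?_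
      rcases hx with rfl | hx
      · exact ⟨0, rfl⟩
      · rw [mem_singleton_iff] at hx; subst hx; exact ⟨1, rfl⟩
    | one => rw [one_mul]
    | mul a b _ _ iha ihb =>
      rw [mul_assoc]
      exact (ihb h).trans (iha (b * h))

/-- reachability by the move of the gadget `B` -/
theorem reach1 (h h' : H) :
    Relation.ReflTransGen (fun a b : H => ∃ _ : Fin 1, b = g * a) h h' ↔ ∃ n : ℕ, h' = g ^ n * h := by
  constructor
  · intro hr
    induction hr with
    | refl => exact ⟨0, by simp⟩
    | tail _ hbc ih =>
      obtain ⟨j, rfl⟩ := hbc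
      obtain ⟨n, rfl⟩ := ih
      exact ⟨n + 1, by rw [pow_succ', mul_assoc]⟩
  · rintro ⟨n, rfl⟩
    induction n with
    | zero => simp only [pow_zero, one_mul]; exact Relation.ReflTransGen.refl
    | succ n ih => exact ih.tail ⟨0, by rw [pow_succ', mul_assoc]⟩

end

theorem bool_eq_of_iff {a b : Bool} (h : a = true ↔ b = true) : a = b := by
  cases a <;> cases b <;> simp_all

theorem sub_isNd {α : Type} (t : BC α) (k : ℕ) (s : List ℕ) (h : (t.sub (k :: s)).isNd = true) :
    (t.sub s).isNd = true := by
  change ((t.sub s).child k).isNd = true at h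
  cases hb : t.sub s with
  | lf a => rw [hb] at h; exact absurd h (by simp [BC.child, BC.isNd])
  | nd f => rfl

section low

variable {H : Type} [Group H] {u g c d y : H}
  {κ : H →* Multiplicative (ZMod 2)} {t : BC (Clopens (ℕ → ℕ))}

theorem κ_closure (hG : GrpOK u g c d y κ t) {a : H} (ha : a ∈ Subgroup.closure {u, g, c}) :
    κ a = 1 := by
  have : Subgroup.closure {u, g, c} ≤ κ.ker := by
    rw [Subgroup.closure_le]
    rintro x (rfl | rfl | hx)
    · exact hG.κu
    · exact hG.κg
    · rw [mem_singleton_iff] at hx; subst hx; exact hG.κc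
  exact this ha

theorem κ_monoid (hG : GrpOK u g c d y κ t) {a : H} (ha : a ∈ Submonoid.closure {g⁻¹, u⁻¹}) :
    κ a = 1 := by
  have : Submonoid.closure {g⁻¹, u⁻¹} ≤ κ.ker.toSubmonoid := by
    rw [Submonoid.closure_le]
    rintro x (rfl | hx)
    · exact κ.ker.inv_mem (show g ∈ κ.ker from hG.κg)
    · rw [mem_singleton_iff] at hx; subst hx; exact κ.ker.inv_mem (show u ∈ κ.ker from hG.κu)
  exact this ha

theorem pat_d (z : ℕ → ℕ) : pat u g d y t d z = true := by
  simp [pat]

/-- the pattern is never true at an element with `κ ≠ κ y` other than `d` -/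
theorem pat_κ (hG : GrpOK u g c d y κ t) (z : ℕ → ℕ) {h : H} (hκ : κ h = 1)
    (hp : pat u g d y t h z = true) : h = d := by
  simp only [pat, decide_eq_true_eq] at hp
  rcases hp with h1 | ⟨s, h1, _⟩
  · exact h1
  · exfalso
    rw [h1, map_mul, κ_closure hG (hw_mem u g c s), mul_one] at hκ
    exact hG.κy hκ

/-- the pattern at the elements `y h_s` -/
theorem pat_y (hG : GrpOK u g c d y κ t) (z : ℕ → ℕ) (s : List ℕ) :
    pat u g d y t (y * hw u g s) z = true ↔ (t.sub s).leafVal z := by
  simp only [pat, decide_eq_true_eq]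
  constructor
  · rintro (h1 | ⟨s', h1, h2⟩)
    · exfalso
      have : κ (y * hw u g s) = 1 := by rw [h1]; exact hG.κd
      rw [map_mul, κ_closure hG (hw_mem u g c s), mul_one] at this
      exact hG.κy this
    · have := hG.inj (mul_left_cancel h1)
      subst this
      exact h2
  · intro h
    exact Or.inr ⟨s, rfl, h⟩

/-- truth of `D` -/
def Dt (u g c d y : H) (t : BC (Clopens (ℕ → ℕ))) (z : ℕ → ℕ) (h : H) : Prop :=
  ∃ a ∈ Subgroup.closure {u, g, c}, pat u g d y t (a * h) z = true

/-- truth of `φ` -/
def Ph (u g c d y : H) (t : BC (Clopens (ℕ → ℕ))) (z : ℕ → ℕ) (h : H) : Prop :=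
  ∃ m ∈ Submonoid.closure {g⁻¹, u⁻¹}, Dt u g c d y t z (d * (m * h))

/-- leaves are recognised -/
theorem leaf_iff (hG : GrpOK u g c d y κ t) (z : ℕ → ℕ) (s : List ℕ) :
    Ph u g c d y t z (c * hw u g s) ↔ (t.sub s).isNd = false := by
  constructor
  · rintro ⟨m, hm, a, ha, hp⟩
    by_contra hnd
    have hnd' : (t.sub s).isNd = true := by simpa using hnd
    have hκ : κ (a * (d * (m * (c * hw u g s)))) = 1 := by
      simp only [map_mul, κ_closure hG ha, κ_monoid hG hm, hG.κd, hG.κc,
        κ_closure hG (hw_mem u g c s), mul_one]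
    have h1 := pat_κ hG z hκ hp
    have h2 : d * m * c * hw u g s * d⁻¹ = a⁻¹ := by
      have : d * (m * (c * hw u g s)) = a⁻¹ * d := by
        rw [eq_inv_mul_iff_mul_eq]; exact h1
      calc d * m * c * hw u g s * d⁻¹ = (d * (m * (c * hw u g s))) * d⁻¹ := by group
        _ = a⁻¹ := by rw [this]; group
    refine hG.not_mem s hnd' m hm ?_
    rw [h2]
    exact inv_mem ha
  · intro hnd
    refine ⟨(hw u g s)⁻¹, hw_inv_mem u g s, ((hw u g s)⁻¹ * c * hw u g s)⁻¹, ?_, ?_⟩
    · have hc : c ∈ Subgroup.closure {u, g, c} := Subgroup.subset_closure (by simp)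
      exact inv_mem (mul_mem (mul_mem (inv_mem (hw_mem u g c s)) hc) (hw_mem u g c s))
    · have h1 := (hG.comm s hnd).eq
      have h2 : ((hw u g s)⁻¹ * c * hw u g s)⁻¹ * (d * ((hw u g s)⁻¹ * (c * hw u g s))) = d := by
        have e : d * ((hw u g s)⁻¹ * (c * hw u g s)) = (hw u g s)⁻¹ * c * hw u g s * d := by
          rw [← h1]; group
        rw [e]; group
      rw [h2]
      exact pat_d z

theorem val_of_leaf {b : BC (Clopens (ℕ → ℕ))} (h : b.isNd = false) (z : ℕ → ℕ) :
    b.leafVal z ↔ b.val z := by
  cases b with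
  | lf a => exact Iff.rfl
  | nd f => exact absurd h (by simp [BC.isNd])

end low

theorem low (h0 : S_GEN0) (hGen : S_GEN) : S_LOW := by
  intro H _ _ u g c d y κ t htn hG f hf hrule hβ z
  -- the rule in simple form
  have rule : ∀ h w,
      (((f h z (w + 1)).m = (f h z w).m ∧ ((f h z w).m = false → (f h z w).β = false) ∧
        ((f h z w).m = true → (f h z w).β = false → (f h z (w + 1)).β = false →
          (f h z (w + 1)).e₁ ≠ (f h z w).e₁)) ∧
      ReachOK (f h z w).m (f h z w).D (f h z (w + 1)).D
        ![(f (u * h) z w).D, (f (u⁻¹ * h) z w).D, (f (g * h) z w).D, (f (g⁻¹ * h) z w).D,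
          (f (c * h) z w).D] ∧
      ReachOK (f (d * h) z w).D.P (f h z w).φ (f h z (w + 1)).φ
        ![(f (g⁻¹ * h) z w).φ, (f (u⁻¹ * h) z w).φ] ∧
      ((f (d * h) z w).D.P = true → (f h z w).act = true) ∧
      ((f h z w).act = true →
        (f (g * h) z w).act = true ∧
        ((f (c * u * h) z w).φ.P = false → (f (u * h) z w).act = true) ∧
        ReachOK (if (f (c * u * h) z w).φ.P = true then (f (y * u * h) z w).m
          else !(f (u * h) z w).B.P) (f h z w).B (f h z (w + 1)).B ![(f (g * h) z w).B])) := by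
    intro h w
    have := hrule h z w
    simpa only [Rule0, gensH, Prod.fst_one, Prod.snd_one, one_mul, zt_one', zt_ofAdd, add_zero,
      Prod.inv_mk, inv_one, Prod.mk_mul_mk, mul_one] using this
  have hmeas : ∀ (h : H) (S : Set Lb), @MeasurableSet ℤ_[3] (borel ℤ_[3]) {w | f h z w ∈ S} := by
    intro h S
    have : {w | f h z w ∈ S} = ⋃ l ∈ S, {w | f h z w = l} := by
      ext w; simp
    rw [this]
    exact MeasurableSet.biUnion (Set.to_countable S) fun l _ => hf h z l
  -- step 1
  have st1 : ∀ᶠ w in residual ℤ_[3], ∀ h : H, (f h z w).m = pat u g d y t h z := by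
    rw [eventually_countable_forall]
    intro h
    cases hp : pat u g d y t h z with
    | true =>
      refine Eventually.of_forall fun w => ?_
      have h1 := hβ h z w
      rw [hp] at h1
      cases hm : (f h z w).m with
      | true => rfl
      | false =>
        have := (rule h w).1.2.1 hm
        rw [h1] at this
        exact absurd this (by decide)
    | false =>
      have hb : ∀ w, (f h z w).β = false := fun w => by rw [hβ h z w, hp]
      exact h0 (fun w => (f h z w).m) (fun w => (f h z w).e₁) (hmeas h {l | l.m = true})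
        (hmeas h {l | l.e₁ = true}) (fun w => (rule h w).1.1)
        (fun w hm => (rule h w).1.2.2 hm (hb w) (hb (w + 1)))
  -- step 2
  have st2 : ∀ᶠ w in residual ℤ_[3], ∀ h : H, ((f h z w).D.P = true ↔ Dt u g c d y t z h) := by
    have key := hGen H 5 (fun j h => (![u, u⁻¹, g, g⁻¹, c] j) * h) univ (fun _ _ _ => mem_univ _)
      (fun h => pat u g d y t h z) (fun h w => (f h z w).D) (fun h w => (f h z w).m)
      (fun h l => hmeas h {b | b.D = l})
      (by filter_upwards [st1] with w hw h _; exact hw h)
      (by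
        refine Eventually.of_forall fun w h _ => ?_
        have h1 := (rule h w).2.1
        have e : (![(f (u * h) z w).D, (f (u⁻¹ * h) z w).D, (f (g * h) z w).D,
            (f (g⁻¹ * h) z w).D, (f (c * h) z w).D] : Fin 5 → RL 5) =
            fun j => (f ((![u, u⁻¹, g, g⁻¹, c] j) * h) z w).D := by
          funext j
          fin_cases j <;> rfl
        rw [e] at h1
        exact h1)
    filter_upwards [key] with w hw h
    rw [hw h (mem_univ _)]
    constructor
    · rintro ⟨h', hr, hp⟩
      obtain ⟨a, ha, rfl⟩ := (reach5 u g c hG.cc h h').mp hr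
      exact ⟨a, ha, hp⟩
    · rintro ⟨a, ha, hp⟩
      exact ⟨a * h, (reach5 u g c hG.cc h _).mpr ⟨a, ha, rfl⟩, hp⟩
  -- step 3
  classical
  have st3 : ∀ᶠ w in residual ℤ_[3], ∀ h : H, ((f h z w).φ.P = true ↔ Ph u g c d y t z h) := by
    have key := hGen H 2 (fun j h => (![g⁻¹, u⁻¹] j) * h) univ (fun _ _ _ => mem_univ _)
      (fun h => decide (Dt u g c d y t z (d * h))) (fun h w => (f h z w).φ)
      (fun h w => (f (d * h) z w).D.P)
      (fun h l => hmeas h {b | b.φ = l})
      (by
        filter_upwards [st2] with w hw h _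
        exact bool_eq_of_iff ((hw (d * h)).trans (by simp)))
      (by
        refine Eventually.of_forall fun w h _ => ?_
        have h1 := (rule h w).2.2.1
        have e : (![(f (g⁻¹ * h) z w).φ, (f (u⁻¹ * h) z w).φ] : Fin 2 → RL 2) =
            fun j => (f ((![g⁻¹, u⁻¹] j) * h) z w).φ := by
          funext j
          fin_cases j <;> rfl
        rw [e] at h1
        exact h1)
    filter_upwards [key] with w hw h
    rw [hw h (mem_univ _)]
    constructor
    · rintro ⟨h', hr, hp⟩
      obtain ⟨a, ha, rfl⟩ := (reach2 u g h h').mp hr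
      exact ⟨a, ha, by simpa using hp⟩
    · rintro ⟨a, ha, hp⟩
      exact ⟨a * h, (reach2 u g h _).mpr ⟨a, ha, rfl⟩, by simpa using hp⟩
  -- step 5
  have hpowhw : ∀ (k : ℕ) (s : List ℕ), u * (g ^ k * hw u g s) = hw u g (k :: s) := by
    intro k s
    simp [hw, mul_assoc]
  have st5 : ∀ᶠ w in residual ℤ_[3], ∀ s : List ℕ, (t.sub s).isNd = true → ∀ j : ℕ,
      (f (g ^ j * hw u g s) z w).act = true := by
    filter_upwards [st2, st3] with w h2 h3
    have hpow : ∀ h : H, (f h z w).act = true → ∀ j : ℕ, (f (g ^ j * h) z w).act = true := by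
      intro h hh j
      induction j with
      | zero => simpa using hh
      | succ j ih =>
        have := ((rule (g ^ j * h) w).2.2.2.2 ih).1
        rwa [← mul_assoc, ← pow_succ'] at this
    intro s
    induction s with
    | nil =>
      intro _ j
      refine hpow 1 ?_ j
      refine (rule 1 w).2.2.2.1 ((h2 (d * 1)).mpr ⟨1, one_mem _, ?_⟩)
      rw [one_mul, mul_one]
      exact pat_d z
    | cons k s ih =>
      intro hnd j
      refine hpow _ ?_ j
      have h4 := ih (sub_isNd t k s hnd) k
      have h5 := ((rule (g ^ k * hw u g s) w).2.2.2.2 h4).2.1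
      rw [hpowhw] at h5
      refine h5 ?_
      rw [mul_assoc, hpowhw]
      have h6 : ¬ Ph u g c d y t z (c * hw u g (k :: s)) := by
        rw [leaf_iff hG z]
        rw [hnd]; decide
      rw [← h3] at h6
      simpa using h6
  -- step 6
  have st6 : ∀ (b : BC (Clopens (ℕ → ℕ))) (s : List ℕ), t.sub s = b → b.isNd = true →
      ∀ᶠ w in residual ℤ_[3], ∀ j : ℕ, ((f (g ^ j * hw u g s) z w).B.P = true ↔
        ∃ i, j ≤ i ∧ (t.sub (i :: s)).val z) := by
    intro b
    induction b with
    | lf a => intro s _ h; exact absurd h (by simp [BC.isNd])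
    | nd ff IH =>
      intro s hs _
      have hsub : ∀ i, t.sub (i :: s) = ff i := by
        intro i
        change (t.sub s).child i = ff i
        rw [hs]; rfl
      have hIH : ∀ᶠ w in residual ℤ_[3], ∀ i : ℕ, (ff i).isNd = true →
          ((f (hw u g (i :: s)) z w).B.P = true ↔ ¬ (t.sub (i :: s)).val z) := by
        rw [eventually_countable_forall]
        intro i
        by_cases hi : (ff i).isNd = true
        · filter_upwards [IH i (i :: s) (hsub i) hi] with w hw _
          have h1 := hw 0
          rw [pow_zero, one_mul] at h1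
          rw [h1]
          have h2 : (t.sub (i :: s)).val z ↔ ¬ ∃ k, (t.sub (k :: i :: s)).val z := by
            change (t.sub (i :: s)).val z ↔ ¬ ∃ k, ((t.sub (i :: s)).child k).val z
            cases hc : t.sub (i :: s) with
            | lf a =>
              rw [← hsub i, hc] at hi
              exact absurd hi (by simp [BC.isNd])
            | nd f' => exact Iff.rfl
          rw [h2, not_not]
          constructor
          · rintro ⟨k, _, hk⟩; exact ⟨k, hk⟩
          · rintro ⟨k, hk⟩; exact ⟨k, Nat.zero_le _, hk⟩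
        · exact Eventually.of_forall fun w h => absurd h hi
      let t₀ : H → Bool := fun h => decide (∃ k : ℕ, h = g ^ k * hw u g s ∧ (t.sub (k :: s)).val z)
      have ht₀ : ∀ k : ℕ, (t₀ (g ^ k * hw u g s) = true ↔ (t.sub (k :: s)).val z) := by
        intro k
        simp only [t₀, decide_eq_true_eq]
        constructor
        · rintro ⟨k', h1, h2⟩
          have h3 : hw u g (k :: s) = hw u g (k' :: s) := by
            rw [← hpowhw, ← hpowhw, h1]
          have h4 := hG.inj h3
          rw [List.cons.injEq] at h4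
          rw [h4.1]; exact h2
        · intro h; exact ⟨k, rfl, h⟩
      have key := hGen H 1 (fun _ h => g * h) {h | ∃ k : ℕ, h = g ^ k * hw u g s}
        (by
          rintro h ⟨k, rfl⟩ _
          exact ⟨k + 1, by rw [pow_succ', mul_assoc]⟩)
        t₀ (fun h w => (f h z w).B)
        (fun h w => if (f (c * u * h) z w).φ.P = true then (f (y * u * h) z w).m
          else !(f (u * h) z w).B.P)
        (fun h l => hmeas h {b | b.B = l})
        (by
          filter_upwards [st1, st3, hIH] with w h1 h3 h6
          rintro h ⟨k, rfl⟩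
          refine bool_eq_of_iff ?_
          rw [ht₀ k, mul_assoc c u, mul_assoc y u, hpowhw]
          by_cases hnd : (t.sub (k :: s)).isNd = false
          · have hφ : (f (c * hw u g (k :: s)) z w).φ.P = true :=
              (h3 _).mpr ((leaf_iff hG z _).mpr hnd)
            rw [if_pos hφ, h1, pat_y hG z, val_of_leaf hnd]
          · have hnd' : (t.sub (k :: s)).isNd = true := by simpa using hnd
            have hφ : ¬ (f (c * hw u g (k :: s)) z w).φ.P = true := by
              rw [h3, leaf_iff hG z]; exact hnd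
            rw [if_neg hφ]
            have h7 := h6 k (by rw [← hsub k]; exact hnd')
            rw [Bool.not_eq_true', ← Bool.not_eq_true, h7, not_not])
        (by
          filter_upwards [st5] with w h5
          rintro h ⟨k, rfl⟩
          have hact := h5 s (by rw [hs]; rfl) k
          have h1 := ((rule (g ^ k * hw u g s) w).2.2.2.2 hact).2.2
          have e : (![(f (g * (g ^ k * hw u g s)) z w).B] : Fin 1 → RL 1) =
              fun _ => (f (g * (g ^ k * hw u g s)) z w).B := by
            funext j
            fin_cases j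
            rfl
          rw [e] at h1
          exact h1)
      filter_upwards [key] with w hkw j
      rw [hkw _ ⟨j, rfl⟩]
      constructor
      · rintro ⟨h', hr, hp⟩
        obtain ⟨n, rfl⟩ := (reach1 g _ h').mp hr
        rw [← mul_assoc, ← pow_add] at hp
        exact ⟨n + j, by omega, (ht₀ _).mp hp⟩
      · rintro ⟨i, hji, hi⟩
        refine ⟨g ^ i * hw u g s, (reach1 g _ _).mpr ⟨i - j, ?_⟩, (ht₀ i).mpr hi⟩
        rw [← mul_assoc, ← pow_add]
        congr 2
        omega
  filter_upwards [st6 t [] rfl htn] with w hw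
  have h1 := hw 0
  rw [pow_zero, one_mul] at h1
  change (f 1 z w).B.P = true ↔ _ at h1
  rw [h1]
  constructor
  · rintro ⟨i, _, hi⟩; exact ⟨i, hi⟩
  · rintro ⟨i, hi⟩; exact ⟨i, Nat.zero_le _, hi⟩

end Pool.Agent.Q75.BH
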